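import Mathlib

/-!
# Marcinkiewicz interpolation between (2,2) and (4,4)

For a map `T` from bounded integrable functions on `ℝⁿ` to functions on a measure space, subadditive
in absolute value and of strong type (2,2) and (4,4), it is of strong type (p,p) for `2 < p < 4`,
with constant `C(p) A₂^((4-p)/2) A₄^((p-2)/2)` (constants are those of the `p`-th powers).
-/

open MeasureTheory Set
open scoped ENNReal

namespace Pool.Agent.T9h19.LS

/-- Test functions: measurable, integrable and bounded. -/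
def Nice {Y : Type*} [MeasurableSpace Y] (ν : Measure Y) (F : Y → ℂ) : Prop :=
  Measurable F ∧ Integrable F ν ∧ ∃ B : ℝ, ∀ y, ‖F y‖ ≤ B

lemma lint_low {q : ℝ} (hq : -1 < q) {a : ℝ} (ha : 0 ≤ a) :
    ∫⁻ t in Ioc 0 a, ENNReal.ofReal (t ^ q) = ENNReal.ofReal (a ^ (q + 1) / (q + 1)) := by
  have h1 : IntegrableOn (fun t : ℝ => t ^ q) (Ioc 0 a) := by
    have := intervalIntegral.intervalIntegrable_rpow' hq (a := 0) (b := a)
    rwa [intervalIntegrable_iff_integrableOn_Ioc_of_le ha] at this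
  rw [← ofReal_integral_eq_lintegral_ofReal h1]
  · congr 1
    rw [← intervalIntegral.integral_of_le ha, integral_rpow (Or.inl hq)]
    rw [Real.zero_rpow (by linarith)]
    simp
  · filter_upwards [self_mem_ae_restrict (measurableSet_Ioc : MeasurableSet (Ioc (0 : ℝ) a))]
      with t ht
    exact Real.rpow_nonneg ht.1.le q

lemma lint_high {q : ℝ} (hq : q < -1) {a : ℝ} (ha : 0 < a) :
    ∫⁻ t in Ioi a, ENNReal.ofReal (t ^ q) = ENNReal.ofReal (-a ^ (q + 1) / (q + 1)) := by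
  have h1 := integrableOn_Ioi_rpow_of_lt hq ha
  rw [← ofReal_integral_eq_lintegral_ofReal h1]
  · congr 1
    rw [integral_Ioi_rpow_of_lt hq ha]
  · filter_upwards [self_mem_ae_restrict (measurableSet_Ioi : MeasurableSet (Ioi a))] with t ht
    exact Real.rpow_nonneg (ha.trans ht).le q


lemma inner_high {p c a : ℝ} (hp : 2 < p) (hc : 0 < c) (ha : 0 ≤ a) :
    ∫⁻ t in Ioi (0 : ℝ), (if c * t < a then ENNReal.ofReal (a ^ 2) else 0) *
        ENNReal.ofReal (t ^ (p - 3)) =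
      ENNReal.ofReal (c ^ (2 - p) / (p - 2)) * ENNReal.ofReal (a ^ p) := by
  have h1 : ∀ t ∈ Ioi (0 : ℝ), (if c * t < a then ENNReal.ofReal (a ^ 2) else 0) *
        ENNReal.ofReal (t ^ (p - 3)) =
      (Ioo 0 (a / c)).indicator
        (fun t : ℝ => ENNReal.ofReal (a ^ 2) * ENNReal.ofReal (t ^ (p - 3))) t := by
    intro t ht
    have ht0 : 0 < t := ht
    by_cases h : c * t < a
    · rw [if_pos h, indicator_of_mem]
      exact ⟨ht0, by rw [lt_div_iff₀ hc]; linarith⟩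
    · rw [if_neg h, indicator_of_notMem, zero_mul]
      intro h2
      apply h
      have := (lt_div_iff₀ hc).mp h2.2
      linarith
  rw [setLIntegral_congr_fun measurableSet_Ioi h1,
    lintegral_indicator measurableSet_Ioo, Measure.restrict_restrict measurableSet_Ioo,
    inter_eq_left.mpr (fun t ht => ht.1), lintegral_const_mul' _ _ ENNReal.ofReal_ne_top,
    setLIntegral_congr (Ioo_ae_eq_Ioc), lint_low (by linarith) (by positivity),
    ← ENNReal.ofReal_mul (by positivity), ← ENNReal.ofReal_mul (by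
      have : 0 < p - 2 := by linarith
      positivity)]
  congr 1
  rcases ha.eq_or_lt with rfl | ha
  · simp [Real.zero_rpow (by linarith : p ≠ 0)]
  · rw [Real.div_rpow ha.le hc.le]
    have e1 : p - 3 + 1 = p - 2 := by ring
    rw [e1]
    have e2 : a ^ p = a ^ 2 * a ^ (p - 2) := by
      rw [← Real.rpow_natCast, ← Real.rpow_add ha]
      congr 1
      push_cast
      ring
    have e3 : c ^ (2 - p) = (c ^ (p - 2))⁻¹ := by
      rw [← Real.rpow_neg hc.le]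
      congr 1
      ring
    rw [e2, e3]
    field_simp

lemma inner_low {p c a : ℝ} (hp : p < 4) (hp0 : 0 < p) (hc : 0 < c) (ha : 0 ≤ a) :
    ∫⁻ t in Ioi (0 : ℝ), (if a ≤ c * t then ENNReal.ofReal (a ^ 4) else 0) *
        ENNReal.ofReal (t ^ (p - 5)) =
      ENNReal.ofReal (c ^ (4 - p) / (4 - p)) * ENNReal.ofReal (a ^ p) := by
  rcases ha.eq_or_lt with rfl | ha
  · simp [Real.zero_rpow (by linarith : p ≠ 0)]
  have h1 : ∀ t ∈ Ioi (0 : ℝ), (if a ≤ c * t then ENNReal.ofReal (a ^ 4) else 0) *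
        ENNReal.ofReal (t ^ (p - 5)) =
      (Ici (a / c)).indicator
        (fun t : ℝ => ENNReal.ofReal (a ^ 4) * ENNReal.ofReal (t ^ (p - 5))) t := by
    intro t ht
    have ht0 : 0 < t := ht
    by_cases h : a ≤ c * t
    · rw [if_pos h, indicator_of_mem]
      change a / c ≤ t
      rw [div_le_iff₀ hc]; linarith
    · rw [if_neg h, indicator_of_notMem, zero_mul]
      intro h2
      apply h
      have := (div_le_iff₀ hc).mp h2
      linarith
  have hac : 0 < a / c := by positivity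
  have hsub : Ici (a / c) ⊆ Ioi (0 : ℝ) := fun t ht => lt_of_lt_of_le hac ht
  rw [setLIntegral_congr_fun measurableSet_Ioi h1,
    lintegral_indicator measurableSet_Ici, Measure.restrict_restrict measurableSet_Ici,
    inter_eq_left.mpr hsub,
    lintegral_const_mul' _ _ ENNReal.ofReal_ne_top,
    setLIntegral_congr (Ioi_ae_eq_Ici.symm), lint_high (by linarith) hac,
    ← ENNReal.ofReal_mul (by positivity), ← ENNReal.ofReal_mul (by
      have : 0 < 4 - p := by linarith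
      positivity)]
  congr 1
  rw [Real.div_rpow ha.le hc.le]
  have e1 : p - 5 + 1 = - (4 - p) := by ring
  rw [e1, Real.rpow_neg ha.le, Real.rpow_neg hc.le]
  have e2 : a ^ 4 = a ^ p * a ^ (4 - p) := by
    rw [← Real.rpow_natCast, ← Real.rpow_add ha]
    congr 1
    push_cast
    ring
  have h4 : 4 - p ≠ 0 := by linarith
  have h5 : a ^ (4 - p) ≠ 0 := (Real.rpow_pos_of_pos ha _).ne'
  have h6 : c ^ (4 - p) ≠ 0 := (Real.rpow_pos_of_pos hc _).ne'
  rw [e2]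
  field_simp


lemma cheb {X : Type*} [MeasurableSpace X] {μ : Measure X} {g : X → ℂ}
    (hg : AEStronglyMeasurable g μ) {s : ℝ} (hs : 0 < s) (k : ℕ) :
    μ {x | s < ‖g x‖} ≤ ENNReal.ofReal ((s ^ k)⁻¹) * ∫⁻ x, ‖g x‖ₑ ^ (k : ℝ) ∂μ := by
  have h1 : {x | s < ‖g x‖} ⊆ {x | ENNReal.ofReal (s ^ k) ≤ ‖g x‖ₑ ^ (k : ℝ)} := by
    intro x hx
    have hx' : s < ‖g x‖ := hx
    change ENNReal.ofReal (s ^ k) ≤ ‖g x‖ₑ ^ (k : ℝ)
    rw [ENNReal.rpow_natCast, ← ofReal_norm, ← ENNReal.ofReal_pow (norm_nonneg _)]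
    exact ENNReal.ofReal_le_ofReal (pow_le_pow_left₀ hs.le hx'.le k)
  have hpos : 0 < s ^ k := by positivity
  calc μ {x | s < ‖g x‖} ≤ μ {x | ENNReal.ofReal (s ^ k) ≤ ‖g x‖ₑ ^ (k : ℝ)} :=
        measure_mono h1
    _ ≤ (∫⁻ x, ‖g x‖ₑ ^ (k : ℝ) ∂μ) / ENNReal.ofReal (s ^ k) :=
        meas_ge_le_lintegral_div (hg.enorm.pow_const _)
          (by rw [Ne, ENNReal.ofReal_eq_zero]; exact not_le.mpr hpos) ENNReal.ofReal_ne_top
    _ = _ := by
        rw [ENNReal.ofReal_inv_of_pos hpos, ENNReal.div_eq_inv_mul]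


/-- One scale `c`: the bound before optimising. -/
theorem interp_scale {Y X : Type*} [MeasurableSpace Y] [MeasurableSpace X] {ν : Measure Y}
    [SFinite ν] {μ : Measure X} {p : ℝ} (hp2 : 2 < p) (hp4 : p < 4)
    (T : (Y → ℂ) → X → ℂ) {A2 A4 : ℝ≥0∞}
    (hT : ∀ F, Nice ν F → AEStronglyMeasurable (T F) μ)
    (h2 : ∀ F, Nice ν F → ∫⁻ x, ‖T F x‖ₑ ^ (2 : ℝ) ∂μ ≤ A2 * ∫⁻ y, ‖F y‖ₑ ^ (2 : ℝ) ∂ν)
    (h4 : ∀ F, Nice ν F → ∫⁻ x, ‖T F x‖ₑ ^ (4 : ℝ) ∂μ ≤ A4 * ∫⁻ y, ‖F y‖ₑ ^ (4 : ℝ) ∂ν)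
    (hs : ∀ F G, Nice ν F → Nice ν G → ∀ᵐ x ∂μ, ‖T (F + G) x‖ ≤ ‖T F x‖ + ‖T G x‖)
    {c : ℝ} (hc : 0 < c) {F : Y → ℂ} (hF : Nice ν F) :
    ∫⁻ x, ‖T F x‖ₑ ^ p ∂μ ≤ ENNReal.ofReal p *
      (4 * A2 * ENNReal.ofReal (c ^ (2 - p) / (p - 2)) +
        16 * A4 * ENNReal.ofReal (c ^ (4 - p) / (4 - p))) * ∫⁻ y, ‖F y‖ₑ ^ p ∂ν := by
  obtain ⟨hFm, hFi, B, hB⟩ := hF
  have hp0 : 0 < p := by linarith
  set Hh : ℝ → Y → ℝ≥0∞ := fun t y => (if c * t < ‖F y‖ then ENNReal.ofReal (‖F y‖ ^ 2) else 0) *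
    ENNReal.ofReal (t ^ (p - 3)) with hHh
  set Hl : ℝ → Y → ℝ≥0∞ := fun t y => (if ‖F y‖ ≤ c * t then ENNReal.ofReal (‖F y‖ ^ 4) else 0) *
    ENNReal.ofReal (t ^ (p - 5)) with hHl
  have hmh : Measurable (Function.uncurry Hh) := by
    apply Measurable.mul
    · apply Measurable.ite
      · exact measurableSet_lt (by fun_prop) (by fun_prop)
      · fun_prop
      · fun_prop
    · fun_prop
  have hml : Measurable (Function.uncurry Hl) := by
    apply Measurable.mul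
    · apply Measurable.ite
      · exact measurableSet_le (by fun_prop) (by fun_prop)
      · fun_prop
      · fun_prop
    · fun_prop
  -- the pointwise bound
  have key : ∀ t ∈ Ioi (0 : ℝ), μ {x | t < ‖T F x‖} * ENNReal.ofReal (t ^ (p - 1)) ≤
      4 * A2 * ∫⁻ y, Hh t y ∂ν + 16 * A4 * ∫⁻ y, Hl t y ∂ν := by
    intro t ht
    have ht0 : 0 < t := ht
    set Fh : Y → ℂ := fun y => if c * t < ‖F y‖ then F y else 0 with hFh
    set Fl : Y → ℂ := fun y => if ‖F y‖ ≤ c * t then F y else 0 with hFl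
    have hsum : F = Fh + Fl := by
      funext y
      simp only [hFh, hFl, Pi.add_apply]
      by_cases h : c * t < ‖F y‖
      · rw [if_pos h, if_neg (not_le.mpr h), add_zero]
      · rw [if_neg h, if_pos (not_lt.mp h), zero_add]
    have nh : Nice ν Fh := by
      have hm : Measurable Fh := Measurable.ite (measurableSet_lt (by fun_prop) (by fun_prop))
        hFm measurable_const
      refine ⟨hm, hFi.mono hm.aestronglyMeasurable (Filter.Eventually.of_forall fun y => ?_), B,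
        fun y => ?_⟩
      · simp only [hFh]
        split_ifs
        · exact le_rfl
        · simp
      · simp only [hFh]
        split_ifs
        · exact hB y
        · simpa using (norm_nonneg (F y)).trans (hB y)
    have nl : Nice ν Fl := by
      have hm : Measurable Fl := Measurable.ite (measurableSet_le (by fun_prop) (by fun_prop))
        hFm measurable_const
      refine ⟨hm, hFi.mono hm.aestronglyMeasurable (Filter.Eventually.of_forall fun y => ?_), B,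
        fun y => ?_⟩
      · simp only [hFl]
        split_ifs
        · exact le_rfl
        · simp
      · simp only [hFl]
        split_ifs
        · exact hB y
        · simpa using (norm_nonneg (F y)).trans (hB y)
    have hsub : μ {x | t < ‖T F x‖} ≤ μ {x | t / 2 < ‖T Fh x‖} + μ {x | t / 2 < ‖T Fl x‖} := by
      refine le_trans (measure_mono_ae ?_) (measure_union_le _ _)
      have h := hs Fh Fl nh nl
      rw [← hsum] at h
      filter_upwards [h] with x hx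
      intro hx2
      have hx3 : t < ‖T F x‖ := hx2
      by_cases h5 : t / 2 < ‖T Fh x‖
      · exact Or.inl h5
      · right
        change t / 2 < ‖T Fl x‖
        linarith [not_lt.mp h5]
    have e2 : ∫⁻ y, ‖Fh y‖ₑ ^ (2 : ℝ) ∂ν =
        ∫⁻ y, (if c * t < ‖F y‖ then ENNReal.ofReal (‖F y‖ ^ 2) else 0) ∂ν := by
      refine lintegral_congr fun y => ?_
      simp only [hFh]
      split_ifs
      · rw [show (2 : ℝ) = ((2 : ℕ) : ℝ) by norm_num, ENNReal.rpow_natCast, ← ofReal_norm,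
          ← ENNReal.ofReal_pow (norm_nonneg _)]
      · simp
    have e4 : ∫⁻ y, ‖Fl y‖ₑ ^ (4 : ℝ) ∂ν =
        ∫⁻ y, (if ‖F y‖ ≤ c * t then ENNReal.ofReal (‖F y‖ ^ 4) else 0) ∂ν := by
      refine lintegral_congr fun y => ?_
      simp only [hFl]
      split_ifs
      · rw [show (4 : ℝ) = ((4 : ℕ) : ℝ) by norm_num, ENNReal.rpow_natCast, ← ofReal_norm,
          ← ENNReal.ofReal_pow (norm_nonneg _)]
      · simp
    have c2 := cheb (hT Fh nh) (half_pos ht0) 2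
    have c4 := cheb (hT Fl nl) (half_pos ht0) 4
    push_cast at c2 c4
    have b2 := h2 Fh nh
    have b4 := h4 Fl nl
    rw [e2] at b2
    rw [e4] at b4
    have i2 : ∫⁻ y, Hh t y ∂ν =
        (∫⁻ y, (if c * t < ‖F y‖ then ENNReal.ofReal (‖F y‖ ^ 2) else 0) ∂ν) *
          ENNReal.ofReal (t ^ (p - 3)) := by
      simp only [hHh]
      rw [lintegral_mul_const' _ _ ENNReal.ofReal_ne_top]
    have i4 : ∫⁻ y, Hl t y ∂ν =
        (∫⁻ y, (if ‖F y‖ ≤ c * t then ENNReal.ofReal (‖F y‖ ^ 4) else 0) ∂ν) *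
          ENNReal.ofReal (t ^ (p - 5)) := by
      simp only [hHl]
      rw [lintegral_mul_const' _ _ ENNReal.ofReal_ne_top]
    have r2 : ENNReal.ofReal (((t / 2) ^ 2)⁻¹) * ENNReal.ofReal (t ^ (p - 1)) =
        4 * ENNReal.ofReal (t ^ (p - 3)) := by
      rw [← ENNReal.ofReal_mul (by positivity), show (4 : ℝ≥0∞) = ENNReal.ofReal 4 by simp,
        ← ENNReal.ofReal_mul (by positivity)]
      congr 1
      have : t ^ (p - 1) = t ^ (p - 3) * t ^ 2 := by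
        rw [← Real.rpow_natCast, ← Real.rpow_add ht0]
        congr 1
        push_cast
        ring
      rw [this]
      field_simp
      norm_num
    have r4 : ENNReal.ofReal (((t / 2) ^ 4)⁻¹) * ENNReal.ofReal (t ^ (p - 1)) =
        16 * ENNReal.ofReal (t ^ (p - 5)) := by
      rw [← ENNReal.ofReal_mul (by positivity), show (16 : ℝ≥0∞) = ENNReal.ofReal 16 by simp,
        ← ENNReal.ofReal_mul (by positivity)]
      congr 1
      have : t ^ (p - 1) = t ^ (p - 5) * t ^ 4 := by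
        rw [← Real.rpow_natCast, ← Real.rpow_add ht0]
        congr 1
        push_cast
        ring
      rw [this]
      field_simp
      norm_num
    rw [i2, i4]
    set I2 := ∫⁻ y, (if c * t < ‖F y‖ then ENNReal.ofReal (‖F y‖ ^ 2) else 0) ∂ν
    set I4 := ∫⁻ y, (if ‖F y‖ ≤ c * t then ENNReal.ofReal (‖F y‖ ^ 4) else 0) ∂ν
    calc μ {x | t < ‖T F x‖} * ENNReal.ofReal (t ^ (p - 1))
        ≤ (ENNReal.ofReal (((t / 2) ^ 2)⁻¹) * (A2 * I2) +
            ENNReal.ofReal (((t / 2) ^ 4)⁻¹) * (A4 * I4)) * ENNReal.ofReal (t ^ (p - 1)) := by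
          gcongr
          refine hsub.trans ?_
          gcongr
          · exact c2.trans (by gcongr)
          · exact c4.trans (by gcongr)
      _ = (ENNReal.ofReal (((t / 2) ^ 2)⁻¹) * ENNReal.ofReal (t ^ (p - 1))) * (A2 * I2) +
            (ENNReal.ofReal (((t / 2) ^ 4)⁻¹) * ENNReal.ofReal (t ^ (p - 1))) * (A4 * I4) := by
          ring
      _ = 4 * A2 * (I2 * ENNReal.ofReal (t ^ (p - 3))) +
            16 * A4 * (I4 * ENNReal.ofReal (t ^ (p - 5))) := by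
          rw [r2, r4]
          ring
  -- layer cake
  have lc : ∫⁻ x, ‖T F x‖ₑ ^ p ∂μ =
      ENNReal.ofReal p * ∫⁻ t in Ioi (0 : ℝ), μ {x | t < ‖T F x‖} * ENNReal.ofReal (t ^ (p - 1)) := by
    rw [← lintegral_rpow_eq_lintegral_meas_lt_mul μ
      (Filter.Eventually.of_forall fun x => norm_nonneg _)
      (hT F ⟨hFm, hFi, B, hB⟩).norm.aemeasurable hp0]
    refine lintegral_congr fun x => ?_
    rw [← ofReal_norm, ENNReal.ofReal_rpow_of_nonneg (norm_nonneg _) hp0.le]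
  have sw2 : ∫⁻ t in Ioi (0 : ℝ), ∫⁻ y, Hh t y ∂ν =
      ENNReal.ofReal (c ^ (2 - p) / (p - 2)) * ∫⁻ y, ‖F y‖ₑ ^ p ∂ν := by
    rw [lintegral_lintegral_swap hmh.aemeasurable, ← lintegral_const_mul' _ _ ENNReal.ofReal_ne_top]
    refine lintegral_congr fun y => ?_
    rw [← ofReal_norm, ENNReal.ofReal_rpow_of_nonneg (norm_nonneg _) hp0.le]
    exact inner_high hp2 hc (norm_nonneg _)
  have sw4 : ∫⁻ t in Ioi (0 : ℝ), ∫⁻ y, Hl t y ∂ν =
      ENNReal.ofReal (c ^ (4 - p) / (4 - p)) * ∫⁻ y, ‖F y‖ₑ ^ p ∂ν := by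
    rw [lintegral_lintegral_swap hml.aemeasurable, ← lintegral_const_mul' _ _ ENNReal.ofReal_ne_top]
    refine lintegral_congr fun y => ?_
    rw [← ofReal_norm, ENNReal.ofReal_rpow_of_nonneg (norm_nonneg _) hp0.le]
    exact inner_low hp4 hp0 hc (norm_nonneg _)
  have m2 : Measurable fun t : ℝ => ∫⁻ y, Hh t y ∂ν := hmh.lintegral_prod_right'
  have m4 : Measurable fun t : ℝ => ∫⁻ y, Hl t y ∂ν := hml.lintegral_prod_right'
  calc ∫⁻ x, ‖T F x‖ₑ ^ p ∂μ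
      ≤ ENNReal.ofReal p * ∫⁻ t in Ioi (0 : ℝ),
          (4 * A2 * ∫⁻ y, Hh t y ∂ν + 16 * A4 * ∫⁻ y, Hl t y ∂ν) := by
        rw [lc]
        exact mul_le_mul' le_rfl (setLIntegral_mono' measurableSet_Ioi key)
    _ = ENNReal.ofReal p * (4 * A2 * (∫⁻ t in Ioi (0 : ℝ), ∫⁻ y, Hh t y ∂ν) +
          16 * A4 * ∫⁻ t in Ioi (0 : ℝ), ∫⁻ y, Hl t y ∂ν) := by
        rw [lintegral_add_left (m2.const_mul _), lintegral_const_mul _ m2,
          lintegral_const_mul _ m4]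
    _ = _ := by
        rw [sw2, sw4]
        ring


/-- The constant of `interp`. -/
noncomputable def intC (p : ℝ) : ℝ := p * (4 / (p - 2) + 16 / (4 - p))

lemma intC_pos {p : ℝ} (hp2 : 2 < p) (hp4 : p < 4) : 0 < intC p := by
  unfold intC
  have h1 : 0 < p - 2 := by linarith
  have h2 : 0 < 4 - p := by linarith
  positivity

/-- Interpolation, finite positive constants. -/
lemma interp_pos {Y X : Type*} [MeasurableSpace Y] [MeasurableSpace X] {ν : Measure Y}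
    [SFinite ν] {μ : Measure X} {p : ℝ} (hp2 : 2 < p) (hp4 : p < 4)
    (T : (Y → ℂ) → X → ℂ) {a2 a4 : ℝ} (ha2 : 0 < a2) (ha4 : 0 < a4)
    (hT : ∀ F, Nice ν F → AEStronglyMeasurable (T F) μ)
    (h2 : ∀ F, Nice ν F → ∫⁻ x, ‖T F x‖ₑ ^ (2 : ℝ) ∂μ ≤
      ENNReal.ofReal a2 * ∫⁻ y, ‖F y‖ₑ ^ (2 : ℝ) ∂ν)
    (h4 : ∀ F, Nice ν F → ∫⁻ x, ‖T F x‖ₑ ^ (4 : ℝ) ∂μ ≤
      ENNReal.ofReal a4 * ∫⁻ y, ‖F y‖ₑ ^ (4 : ℝ) ∂ν)
    (hs : ∀ F G, Nice ν F → Nice ν G → ∀ᵐ x ∂μ, ‖T (F + G) x‖ ≤ ‖T F x‖ + ‖T G x‖)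
    {F : Y → ℂ} (hF : Nice ν F) :
    ∫⁻ x, ‖T F x‖ₑ ^ p ∂μ ≤ ENNReal.ofReal (intC p) * ENNReal.ofReal a2 ^ ((4 - p) / 2) *
      ENNReal.ofReal a4 ^ ((p - 2) / 2) * ∫⁻ y, ‖F y‖ₑ ^ p ∂ν := by
  have hp0 : 0 < p := by linarith
  have d1 : 0 < p - 2 := by linarith
  have d2 : 0 < 4 - p := by linarith
  have hc : 0 < (a2 / a4) ^ (1 / 2 : ℝ) := Real.rpow_pos_of_pos (by positivity) _
  refine (interp_scale hp2 hp4 T hT h2 h4 hs hc hF).trans (le_of_eq ?_)
  congr 1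
  have k1 : ((a2 / a4) ^ (1 / 2 : ℝ)) ^ (2 - p) * a2 = a2 ^ ((4 - p) / 2) * a4 ^ ((p - 2) / 2) := by
    rw [← Real.rpow_mul (by positivity), Real.div_rpow ha2.le ha4.le]
    have e1 : a2 ^ ((4 - p) / 2) = a2 ^ (1 / 2 * (2 - p)) * a2 := by
      nth_rewrite 3 [← Real.rpow_one a2]
      rw [← Real.rpow_add ha2]
      congr 1
      ring
    have e2 : a4 ^ ((p - 2) / 2) = (a4 ^ (1 / 2 * (2 - p)))⁻¹ := by
      rw [← Real.rpow_neg ha4.le]
      congr 1
      ring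
    rw [e1, e2]
    field_simp
  have k2 : ((a2 / a4) ^ (1 / 2 : ℝ)) ^ (4 - p) * a4 = a2 ^ ((4 - p) / 2) * a4 ^ ((p - 2) / 2) := by
    rw [← Real.rpow_mul (by positivity), Real.div_rpow ha2.le ha4.le]
    have e1 : a2 ^ ((4 - p) / 2) = a2 ^ (1 / 2 * (4 - p)) := by
      congr 1
      ring
    have e2 : a4 ^ ((p - 2) / 2) = (a4 ^ (1 / 2 * (4 - p)))⁻¹ * a4 := by
      rw [← Real.rpow_neg ha4.le]
      nth_rewrite 3 [← Real.rpow_one a4]
      rw [← Real.rpow_add ha4]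
      congr 1
      ring
    rw [e1, e2]
    field_simp
  rw [show (4 : ℝ≥0∞) = ENNReal.ofReal 4 by simp, show (16 : ℝ≥0∞) = ENNReal.ofReal 16 by simp,
    ENNReal.ofReal_rpow_of_pos ha2, ENNReal.ofReal_rpow_of_pos ha4,
    ← ENNReal.ofReal_mul (by positivity), ← ENNReal.ofReal_mul (by positivity),
    ← ENNReal.ofReal_mul (by positivity), ← ENNReal.ofReal_mul (by positivity),
    ← ENNReal.ofReal_add (by positivity) (by positivity), ← ENNReal.ofReal_mul (by positivity),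
    ← ENNReal.ofReal_mul (intC_pos hp2 hp4).le,
    ← ENNReal.ofReal_mul (mul_nonneg (intC_pos hp2 hp4).le (by positivity))]
  congr 1
  set C := (a2 / a4) ^ (1 / 2 : ℝ)
  unfold intC
  calc p * (4 * a2 * (C ^ (2 - p) / (p - 2)) + 16 * a4 * (C ^ (4 - p) / (4 - p)))
      = p * (4 / (p - 2) * (C ^ (2 - p) * a2) + 16 / (4 - p) * (C ^ (4 - p) * a4)) := by ring
    _ = _ := by
        rw [k1, k2]
        ring

/-- **Marcinkiewicz interpolation between (2,2) and (4,4)**, with the geometric mean of the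
constants. -/
theorem interp {Y X : Type*} [MeasurableSpace Y] [MeasurableSpace X] {ν : Measure Y}
    [SFinite ν] {μ : Measure X} {p : ℝ} (hp2 : 2 < p) (hp4 : p < 4)
    (T : (Y → ℂ) → X → ℂ) (A2 A4 : ℝ≥0∞)
    (hT : ∀ F, Nice ν F → AEStronglyMeasurable (T F) μ)
    (h2 : ∀ F, Nice ν F → ∫⁻ x, ‖T F x‖ₑ ^ (2 : ℝ) ∂μ ≤ A2 * ∫⁻ y, ‖F y‖ₑ ^ (2 : ℝ) ∂ν)
    (h4 : ∀ F, Nice ν F → ∫⁻ x, ‖T F x‖ₑ ^ (4 : ℝ) ∂μ ≤ A4 * ∫⁻ y, ‖F y‖ₑ ^ (4 : ℝ) ∂ν)
    (hs : ∀ F G, Nice ν F → Nice ν G → ∀ᵐ x ∂μ, ‖T (F + G) x‖ ≤ ‖T F x‖ + ‖T G x‖)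
    {F : Y → ℂ} (hF : Nice ν F) :
    ∫⁻ x, ‖T F x‖ₑ ^ p ∂μ ≤ ENNReal.ofReal (intC p) * A2 ^ ((4 - p) / 2) *
      A4 ^ ((p - 2) / 2) * ∫⁻ y, ‖F y‖ₑ ^ p ∂ν := by
  have hp0 : 0 < p := by linarith
  have d1 : 0 < p - 2 := by linarith
  have d2 : 0 < 4 - p := by linarith
  -- vanishing of one bound makes `T F` vanish
  have zero_of : ∀ q : ℝ, 0 < q → ∫⁻ x, ‖T F x‖ₑ ^ q ∂μ = 0 → ∫⁻ x, ‖T F x‖ₑ ^ p ∂μ = 0 := by
    intro q hq h0
    rw [lintegral_eq_zero_iff' ((hT F hF).enorm.pow_const _)] at h0 ⊢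
    filter_upwards [h0] with x hx
    have hx' : ‖T F x‖ₑ ^ q = 0 := hx
    have : ‖T F x‖ₑ = 0 := by
      rcases ENNReal.rpow_eq_zero_iff.mp hx' with h | h
      · exact h.1
      · exact absurd h.2 (not_lt.mpr hq.le)
    change ‖T F x‖ₑ ^ p = 0
    rw [this, ENNReal.zero_rpow_of_pos hp0]
  by_cases z2 : A2 = 0
  · have := h2 F hF
    rw [z2, zero_mul, nonpos_iff_eq_zero] at this
    rw [zero_of 2 (by norm_num) this]
    exact zero_le
  by_cases z4 : A4 = 0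
  · have := h4 F hF
    rw [z4, zero_mul, nonpos_iff_eq_zero] at this
    rw [zero_of 4 (by norm_num) this]
    exact zero_le
  by_cases zF : ∫⁻ y, ‖F y‖ₑ ^ p ∂ν = 0
  · have hF4 : ∫⁻ y, ‖F y‖ₑ ^ (4 : ℝ) ∂ν = 0 := by
      have hm : Measurable F := hF.1
      rw [lintegral_eq_zero_iff' (hm.enorm.pow_const _).aemeasurable] at zF ⊢
      filter_upwards [zF] with y hy
      have hy' : ‖F y‖ₑ ^ p = 0 := hy
      have : ‖F y‖ₑ = 0 := by
        rcases ENNReal.rpow_eq_zero_iff.mp hy' with h | h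
        · exact h.1
        · exact absurd h.2 (not_lt.mpr hp0.le)
      change ‖F y‖ₑ ^ (4 : ℝ) = 0
      rw [this, ENNReal.zero_rpow_of_pos (by norm_num)]
    have := h4 F hF
    rw [hF4, mul_zero, nonpos_iff_eq_zero] at this
    rw [zero_of 4 (by norm_num) this]
    exact zero_le
  have hCne : ENNReal.ofReal (intC p) ≠ 0 := by
    rw [Ne, ENNReal.ofReal_eq_zero]
    exact not_le.mpr (intC_pos hp2 hp4)
  have n2 : A2 ^ ((4 - p) / 2) ≠ 0 := by
    rw [Ne, ENNReal.rpow_eq_zero_iff]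
    rintro (h | h)
    · exact z2 h.1
    · linarith [h.2]
  have n4 : A4 ^ ((p - 2) / 2) ≠ 0 := by
    rw [Ne, ENNReal.rpow_eq_zero_iff]
    rintro (h | h)
    · exact z4 h.1
    · linarith [h.2]
  by_cases t2 : A2 = ∞
  · rw [t2, ENNReal.top_rpow_of_pos (by positivity), ENNReal.mul_top hCne, ENNReal.top_mul n4,
      ENNReal.top_mul zF]
    exact le_top
  by_cases t4 : A4 = ∞
  · rw [t4, ENNReal.top_rpow_of_pos (by positivity), ENNReal.mul_top (mul_ne_zero hCne n2),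
      ENNReal.top_mul zF]
    exact le_top
  have q2 : 0 < A2.toReal := ENNReal.toReal_pos z2 t2
  have q4 : 0 < A4.toReal := ENNReal.toReal_pos z4 t4
  have := interp_pos hp2 hp4 T q2 q4 hT (by simpa only [ENNReal.ofReal_toReal t2] using h2)
    (by simpa only [ENNReal.ofReal_toReal t4] using h4) hs hF
  rwa [ENNReal.ofReal_toReal t2, ENNReal.ofReal_toReal t4] at this

/-- The form asked for: `ℝⁿ` with Lebesgue measure, subadditivity everywhere, a constant depending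
only on `p`. -/
theorem interp_volume {p : ℝ} (hp2 : 2 < p) (hp4 : p < 4) :
    ∃ C : ℝ, 0 < C ∧ ∀ (X : Type) [MeasurableSpace X] (μ : Measure X) (n : ℕ)
      (T : ((Fin n → ℝ) → ℂ) → X → ℂ) (A2 A4 : ℝ≥0∞),
      (∀ F, Measurable F → Integrable F → (∃ B : ℝ, ∀ y, ‖F y‖ ≤ B) →
        AEStronglyMeasurable (T F) μ) →
      (∀ F, Measurable F → Integrable F → (∃ B : ℝ, ∀ y, ‖F y‖ ≤ B) →
        ∫⁻ x, ‖T F x‖ₑ ^ (2 : ℝ) ∂μ ≤ A2 * ∫⁻ y, ‖F y‖ₑ ^ (2 : ℝ)) →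
      (∀ F, Measurable F → Integrable F → (∃ B : ℝ, ∀ y, ‖F y‖ ≤ B) →
        ∫⁻ x, ‖T F x‖ₑ ^ (4 : ℝ) ∂μ ≤ A4 * ∫⁻ y, ‖F y‖ₑ ^ (4 : ℝ)) →
      (∀ F G, Measurable F → Integrable F → (∃ B : ℝ, ∀ y, ‖F y‖ ≤ B) →
        Measurable G → Integrable G → (∃ B : ℝ, ∀ y, ‖G y‖ ≤ B) →
        ∀ x, ‖T (F + G) x‖ ≤ ‖T F x‖ + ‖T G x‖) →
      ∀ F, Measurable F → Integrable F → (∃ B : ℝ, ∀ y, ‖F y‖ ≤ B) →
        ∫⁻ x, ‖T F x‖ₑ ^ p ∂μ ≤ ENNReal.ofReal C * A2 ^ ((4 - p) / 2) *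
          A4 ^ ((p - 2) / 2) * ∫⁻ y, ‖F y‖ₑ ^ p := by
  refine ⟨intC p, intC_pos hp2 hp4, ?_⟩
  intro X _ μ n T A2 A4 hT h2 h4 hs F hFm hFi hFB
  exact interp hp2 hp4 T A2 A4 (fun F hF => hT F hF.1 hF.2.1 hF.2.2)
    (fun F hF => h2 F hF.1 hF.2.1 hF.2.2) (fun F hF => h4 F hF.1 hF.2.1 hF.2.2)
    (fun F G hF hG => Filter.Eventually.of_forall
      (hs F G hF.1 hF.2.1 hF.2.2 hG.1 hG.2.1 hG.2.2)) ⟨hFm, hFi, hFB⟩

end Pool.Agent.T9h19.LS
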